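import Mathlib

/-!
# A Ramanujan 4-regular graph without a connectivity code of size sixteen

The graph is the circulant graph on `ZMod 16` with jumps `1` and `2`.
-/

set_option autoImplicit false

namespace Pool.Agent.Results.MP_7d4bc7_co.CirculantSixteen

open SimpleGraph Matrix

/-- A connectivity code for `H`: a finite family of spanning subgraphs of `H` such that the
symmetric difference of any two distinct members is a connected graph on all vertices. -/
def IsConnectivityCode {V : Type} (H : SimpleGraph V) (C : Finset (SimpleGraph V)) : Prop :=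
  (∀ F ∈ C, F ≤ H) ∧ ∀ F ∈ C, ∀ G ∈ C, F ≠ G → (symmDiff F G).Connected

/-- `m(H)`: the largest size of a connectivity code for `H`. -/
noncomputable def maxCode {V : Type} (H : SimpleGraph V) : ℕ :=
  sSup {k | ∃ C : Finset (SimpleGraph V), IsConnectivityCode H C ∧ C.card = k}

/-- The adjacency matrix of a graph is symmetric. -/
theorem adj_herm {V : Type} [Fintype V] (H : SimpleGraph V) [DecidableRel H.Adj] :
    (H.adjMatrix ℝ).IsHermitian := by
  unfold Matrix.IsHermitian
  rw [Matrix.conjTranspose_eq_transpose_of_trivial]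
  exact H.isSymm_adjMatrix

/-- `H` is a Ramanujan `d`-regular graph: with the adjacency eigenvalues listed with multiplicity
in decreasing order (indices `0, 1, …, n - 1`), every eigenvalue other than the first one and, when
`H` is bipartite, the last one, has absolute value at most `2 √(d - 1)`. -/
def IsRamanujan {V : Type} [Fintype V] [DecidableEq V] (H : SimpleGraph V)
    [DecidableRel H.Adj] (d : ℕ) : Prop :=
  H.IsRegularOfDegree d ∧ ∀ i : Fin (Fintype.card V), i.val ≠ 0 →
    ¬ (H.IsBipartite ∧ i.val + 1 = Fintype.card V) →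
    |(adj_herm H).eigenvalues₀ i| ≤ 2 * Real.sqrt ((d : ℝ) - 1)

/-- The graph: `ZMod 16`, with `x` and `y` adjacent when `x - y` or `y - x` is `1` or `2`. -/
abbrev H16 : SimpleGraph (ZMod 16) := circulantGraph {1, 2}

instance : DecidableRel H16.Adj := fun x y => by
  unfold H16 circulantGraph
  rw [SimpleGraph.fromRel_adj]
  simp only [Set.mem_insert_iff, Set.mem_singleton_iff]
  infer_instance

theorem regular : H16.IsRegularOfDegree 4 := by
  intro v
  revert v
  decide +kernel

theorem poly_zero :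
    (let A := H16.adjMatrix ℤ
     A * (A + 2 • (1 : Matrix (ZMod 16) (ZMod 16) ℤ)) * (A * A - 2 • (1 : Matrix (ZMod 16) (ZMod 16) ℤ)) *
      (A * A * (A * A) - 8 • (A * A) - 8 • A - 2 • (1 : Matrix (ZMod 16) (ZMod 16) ℤ)) *
      (A - 4 • (1 : Matrix (ZMod 16) (ZMod 16) ℤ))) = 0 := by
  decide +kernel

theorem conn : H16.Connected := by
  have h : ∀ n : ℕ, H16.Reachable 0 (n : ZMod 16) := by
    intro n
    induction n with
    | zero => simp
    | succ n ih =>
      refine ih.trans (Adj.reachable ?_)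
      unfold H16 circulantGraph
      rw [SimpleGraph.fromRel_adj]
      refine ⟨?_, Or.inr ?_⟩
      · push_cast
        intro h
        have : (1 : ZMod 16) = 0 := by
          have := congrArg (fun z => z - (n : ZMod 16)) h
          simpa using this.symm
        exact absurd this (by decide)
      · push_cast
        simp
  have h2 : ∀ x : ZMod 16, H16.Reachable 0 x := by
    intro x
    have := h x.val
    rwa [ZMod.natCast_zmod_val] at this
  exact ⟨fun x y => (h2 x).symm.trans (h2 y)⟩

theorem eig_root (v : ZMod 16 → ℝ) (hv : v ≠ 0) (μ : ℝ) (h : H16.adjMatrix ℝ *ᵥ v = μ • v) :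
    μ * (μ + 2) * (μ * μ - 2) * (μ * μ * (μ * μ) - 8 * (μ * μ) - 8 * μ - 2) * (μ - 4) = 0 := by
  set A := H16.adjMatrix ℝ with hA
  have hmap : A = (H16.adjMatrix ℤ).map (Int.castRingHom ℝ) := by
    ext i j
    simp [hA, SimpleGraph.adjMatrix_apply]
  have hp : A * (A + 2 • (1 : Matrix (ZMod 16) (ZMod 16) ℝ)) *
      (A * A - 2 • (1 : Matrix (ZMod 16) (ZMod 16) ℝ)) *
      (A * A * (A * A) - 8 • (A * A) - 8 • A - 2 • (1 : Matrix (ZMod 16) (ZMod 16) ℝ)) *
      (A - 4 • (1 : Matrix (ZMod 16) (ZMod 16) ℝ)) = 0 := by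
    have h0 := congrArg (RingHom.mapMatrix (Int.castRingHom ℝ)) poly_zero
    simp only [map_mul, map_add, map_sub, map_nsmul, map_one, map_zero,
      RingHom.mapMatrix_apply, ← hmap] at h0
    exact h0
  have hAA : ∀ w : ZMod 16 → ℝ, ∀ c : ℝ, A *ᵥ w = c • w → (A * A) *ᵥ w = (c * c) • w := by
    intro w c hw
    rw [← mulVec_mulVec, hw, mulVec_smul, hw, smul_smul]
  have hsc : ∀ (k : ℕ) (w : ZMod 16 → ℝ),
      (k • (1 : Matrix (ZMod 16) (ZMod 16) ℝ)) *ᵥ w = (k : ℝ) • w := by
    intro k w
    rw [smul_mulVec, one_mulVec]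
    exact (Nat.cast_smul_eq_nsmul ℝ k w).symm
  have hsA : ∀ (k : ℕ) (B : Matrix (ZMod 16) (ZMod 16) ℝ) (w : ZMod 16 → ℝ),
      (k • B) *ᵥ w = (k : ℝ) • (B *ᵥ w) := by
    intro k B w
    rw [smul_mulVec]
    exact (Nat.cast_smul_eq_nsmul ℝ k _).symm
  have h5 : (A - 4 • (1 : Matrix (ZMod 16) (ZMod 16) ℝ)) *ᵥ v = (μ - 4) • v := by
    rw [sub_mulVec, h, hsc, sub_smul]; norm_num
  have h4 : (A * A * (A * A) - 8 • (A * A) - 8 • A -
      2 • (1 : Matrix (ZMod 16) (ZMod 16) ℝ)) *ᵥ v =
      (μ * μ * (μ * μ) - 8 * (μ * μ) - 8 * μ - 2) • v := by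
    rw [sub_mulVec, sub_mulVec, sub_mulVec, hsc, hsA, hsA, h, hAA v μ h, ← mulVec_mulVec,
      hAA v μ h, mulVec_smul, hAA v μ h]
    simp only [smul_smul, ← sub_smul]
    norm_num
  have h3 : (A * A - 2 • (1 : Matrix (ZMod 16) (ZMod 16) ℝ)) *ᵥ v = (μ * μ - 2) • v := by
    rw [sub_mulVec, hAA v μ h, hsc, sub_smul]; norm_num
  have h2 : (A + 2 • (1 : Matrix (ZMod 16) (ZMod 16) ℝ)) *ᵥ v = (μ + 2) • v := by
    rw [add_mulVec, h, hsc, add_smul]; norm_num
  have hz : (μ * (μ + 2) * (μ * μ - 2) * (μ * μ * (μ * μ) - 8 * (μ * μ) - 8 * μ - 2) *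
      (μ - 4)) • v = 0 := by
    have := congrArg (fun M => M *ᵥ v) hp
    simp only [zero_mulVec] at this
    rw [← mulVec_mulVec, h5, mulVec_smul, ← mulVec_mulVec, h4, mulVec_smul, ← mulVec_mulVec, h3,
      mulVec_smul, ← mulVec_mulVec, h2, mulVec_smul, h] at this
    rw [← this]
    simp only [smul_smul]
    congr 1
    ring
  rcases smul_eq_zero.1 hz with h' | h'
  · exact h'
  · exact absurd h' hv

/-- size of the roots -/
theorem root_bound {t : ℝ} (h : t * (t + 2) * (t * t - 2) *
    (t * t * (t * t) - 8 * (t * t) - 8 * t - 2) * (t - 4) = 0) (h4 : t ≠ 4) : t ^ 2 < 12 := by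
  by_contra hc
  push Not at hc
  have h12 : 12 ≤ t ^ 2 := hc
  rcases mul_eq_zero.1 h with h | h
  · rcases mul_eq_zero.1 h with h | h
    · rcases mul_eq_zero.1 h with h | h
      · rcases mul_eq_zero.1 h with h | h
        · rw [h] at h12; norm_num at h12
        · have : t = -2 := by linarith
          rw [this] at h12; norm_num at h12
      · nlinarith
    · have h8 : 4 * t ^ 2 ≤ t ^ 2 * (t ^ 2 - 8) := by nlinarith
      nlinarith [sq_nonneg (t - 2), sq_nonneg (t + 2), sq_nonneg (t - 3)]
  · exact h4 (by linarith)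

theorem const_of_four (v : ZMod 16 → ℝ) (h : H16.adjMatrix ℝ *ᵥ v = (4 : ℝ) • v) :
    ∀ x y, v x = v y := by
  have hl : H16.lapMatrix ℝ *ᵥ v = 0 := by
    unfold SimpleGraph.lapMatrix
    rw [sub_mulVec, h]
    have : H16.degMatrix ℝ *ᵥ v = (4 : ℝ) • v := by
      ext x
      simp [SimpleGraph.degMatrix, mulVec_diagonal, regular x]
    rw [this, sub_self]
  have := (H16.lapMatrix_mulVec_eq_zero_iff_forall_reachable).1 hl
  exact fun x y => this x y (conn.preconnected x y)

theorem ramanujan : IsRamanujan H16 4 := by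
  refine ⟨regular, ?_⟩
  intro i hi _
  set hA := adj_herm H16 with hhA
  set e : Fin (Fintype.card (ZMod 16)) ≃ ZMod 16 :=
    Fintype.equivOfCardEq (Fintype.card_fin _) with he
  have hev : ∀ k, hA.eigenvalues (e k) = hA.eigenvalues₀ k := by
    intro k
    simp [Matrix.IsHermitian.eigenvalues, he]
  have hroot : ∀ k, hA.eigenvalues₀ k * (hA.eigenvalues₀ k + 2) *
      (hA.eigenvalues₀ k * hA.eigenvalues₀ k - 2) *
      (hA.eigenvalues₀ k * hA.eigenvalues₀ k * (hA.eigenvalues₀ k * hA.eigenvalues₀ k) -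
        8 * (hA.eigenvalues₀ k * hA.eigenvalues₀ k) - 8 * hA.eigenvalues₀ k - 2) *
      (hA.eigenvalues₀ k - 4) = 0 := by
    intro k
    refine eig_root (hA.eigenvectorBasis (e k)) ?_ _ ?_
    · intro h0
      have := hA.eigenvectorBasis.orthonormal.ne_zero (e k)
      exact this (by ext x; exact congrFun h0 x)
    · rw [← hev]
      exact hA.mulVec_eigenvectorBasis (e k)
  have huniq : ∀ k l, hA.eigenvalues₀ k = 4 → hA.eigenvalues₀ l = 4 → k = l := by
    intro k l hk hl
    by_contra hne
    have hk' := const_of_four (hA.eigenvectorBasis (e k)) (by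
      rw [← hk, ← hev]; exact hA.mulVec_eigenvectorBasis (e k))
    have hl' := const_of_four (hA.eigenvectorBasis (e l)) (by
      rw [← hl, ← hev]; exact hA.mulVec_eigenvectorBasis (e l))
    have hin := hA.eigenvectorBasis.orthonormal.inner_eq_zero (i := e k) (j := e l)
      (fun h => hne (e.injective h))
    rw [PiLp.inner_apply] at hin
    have h0 : ∀ x, inner ℝ ((hA.eigenvectorBasis (e k)) x) ((hA.eigenvectorBasis (e l)) x) =
        (hA.eigenvectorBasis (e k)) 0 * (hA.eigenvectorBasis (e l)) 0 := by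
      intro x
      rw [hk' x 0, hl' x 0]
      simp [mul_comm]
    simp only [h0] at hin
    simp only [Finset.sum_const, Finset.card_univ, ZMod.card] at hin
    have hne1 : (hA.eigenvectorBasis (e k)) 0 ≠ 0 := by
      intro hz
      have := hA.eigenvectorBasis.orthonormal.ne_zero (e k)
      exact this (by ext x; rw [hk' x 0, hz]; rfl)
    have hne2 : (hA.eigenvectorBasis (e l)) 0 ≠ 0 := by
      intro hz
      have := hA.eigenvectorBasis.orthonormal.ne_zero (e l)
      exact this (by ext x; rw [hl' x 0, hz]; rfl)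
    have h16 := mul_ne_zero hne1 hne2
    apply h16
    have : (16 : ℝ) * ((hA.eigenvectorBasis (e k)) 0 * (hA.eigenvectorBasis (e l)) 0) = 0 := by
      simpa using hin
    linarith
  have hlt : hA.eigenvalues₀ i ≠ 4 := by
    intro h4
    have hpos : 0 < Fintype.card (ZMod 16) := Fintype.card_pos
    have h0 : hA.eigenvalues₀ i ≤ hA.eigenvalues₀ ⟨0, hpos⟩ :=
      hA.eigenvalues₀_antitone (Fin.mk_le_of_le_val (Nat.zero_le _))
    have h04 : hA.eigenvalues₀ ⟨0, hpos⟩ = 4 := by
      by_contra hne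
      have := root_bound (hroot ⟨0, hpos⟩) hne
      nlinarith
    have := huniq _ _ h4 h04
    apply hi
    rw [this]
  have hb := root_bound (hroot i) hlt
  have h3 : (2 * Real.sqrt ((4 : ℕ) - 1 : ℝ)) ^ 2 = 12 := by
    rw [mul_pow, Real.sq_sqrt (by norm_num)]; norm_num
  apply abs_le_of_sq_le_sq _ (by positivity)
  rw [h3]
  exact hb.le

/-! ### Codes -/

/-- `x y` is one of the three edges from the vertices up to `i` to the vertices after `i`. -/
def Bd (i x y : ZMod 16) : Prop :=
  (x = i ∧ y = i + 1) ∨ (x = i ∧ y = i + 2) ∨ (x = i - 1 ∧ y = i + 1)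

instance (i x y : ZMod 16) : Decidable (Bd i x y) := by unfold Bd; infer_instance

theorem cross0 : ∀ j x y : ZMod 16, j ≠ 0 → (x - 1).val < j.val → ¬ (y - 1).val < j.val →
    H16.Adj x y → Bd 0 x y ∨ Bd 0 y x ∨ Bd j x y ∨ Bd j y x := by
  decide +kernel

theorem adj_shift (i x y : ZMod 16) : H16.Adj (x - i) (y - i) ↔ H16.Adj x y := by
  unfold H16 circulantGraph
  rw [SimpleGraph.fromRel_adj, SimpleGraph.fromRel_adj]
  simp

theorem bd_shift (i j x y : ZMod 16) : Bd (j - i) (x - i) (y - i) ↔ Bd j x y := by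
  unfold Bd
  have e1 : y - i = j - i + 1 ↔ y = j + 1 := by
    constructor <;> intro h
    · linear_combination h
    · linear_combination h
  have e2 : y - i = j - i + 2 ↔ y = j + 2 := by
    constructor <;> intro h
    · linear_combination h
    · linear_combination h
  have e3 : x - i = j - i - 1 ↔ x = j - 1 := by
    constructor <;> intro h
    · linear_combination h
    · linear_combination h
  rw [e1, e2, e3, sub_left_inj]

theorem cross (i j x y : ZMod 16) (hij : i ≠ j) (hx : (x - i - 1).val < (j - i).val)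
    (hy : ¬ (y - i - 1).val < (j - i).val) (h : H16.Adj x y) :
    Bd i x y ∨ Bd i y x ∨ Bd j x y ∨ Bd j y x := by
  have := cross0 (j - i) (x - i) (y - i) (sub_ne_zero.2 hij.symm) hx hy ((adj_shift i x y).2 h)
  have h0 : ∀ a b : ZMod 16, Bd 0 (a - i) (b - i) ↔ Bd i a b := by
    intro a b
    have := bd_shift i i a b
    rwa [sub_self] at this
  rw [h0, h0, bd_shift, bd_shift] at this
  exact this

/-- The traces of a subgraph on the three edges. -/
def key (i : ZMod 16) (F : SimpleGraph (ZMod 16)) : Prop × Prop × Prop :=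
  (F.Adj i (i + 1), F.Adj i (i + 2), F.Adj (i - 1) (i + 1))

theorem not_adj_of_key {i : ZMod 16} {F G : SimpleGraph (ZMod 16)} (h : key i F = key i G)
    {x y : ZMod 16} (hb : Bd i x y) : ¬ (symmDiff F G).Adj x y := by
  simp only [key, Prod.mk.injEq, eq_iff_iff] at h
  obtain ⟨h1, h2, h3⟩ := h
  intro hadj
  simp only [symmDiff, SimpleGraph.sup_adj, SimpleGraph.sdiff_adj] at hadj
  rcases hb with ⟨rfl, rfl⟩ | ⟨rfl, rfl⟩ | ⟨rfl, rfl⟩ <;> tauto

theorem key_ne {F G : SimpleGraph (ZMod 16)} (hF : F ≤ H16) (hG : G ≤ H16)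
    (hD : (symmDiff F G).Connected) {i j : ZMod 16} (hij : i ≠ j) (hi : key i F = key i G)
    (hj : key j F = key j G) : False := by
  obtain ⟨p⟩ := hD.preconnected (i + 1) i
  have hpos : 0 < (j - i).val := by
    rw [Nat.pos_iff_ne_zero]
    intro h
    exact hij (sub_eq_zero.1 ((ZMod.val_eq_zero _).1 h)).symm
  obtain ⟨d, -, h1, h2⟩ := p.exists_boundary_dart {x | (x - i - 1).val < (j - i).val}
    (by simpa using hpos) (by
      show ¬ (i - i - 1).val < (j - i).val
      have : (i - i - 1 : ZMod 16).val = 15 := by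
        rw [sub_self]; decide
      rw [this]
      have := ZMod.val_lt (j - i)
      omega)
  have hadj := d.adj
  have hH : H16.Adj d.fst d.snd := by
    simp only [symmDiff, SimpleGraph.sup_adj, SimpleGraph.sdiff_adj] at hadj
    rcases hadj with h | h
    · exact hF h.1
    · exact hG h.1
  rcases cross i j d.fst d.snd hij h1 h2 hH with h | h | h | h
  · exact not_adj_of_key hi h hadj
  · exact not_adj_of_key hi h hadj.symm
  · exact not_adj_of_key hj h hadj
  · exact not_adj_of_key hj h hadj.symm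

open Classical in
theorem code_card (C : Finset (SimpleGraph (ZMod 16))) (hC : IsConnectivityCode H16 C) :
    C.card ≤ 15 := by
  obtain ⟨hsub, hcon⟩ := hC
  set N := C.card with hN
  -- lower bound for each `i`
  have hlow : ∀ i : ZMod 16, N ^ 2 ≤ 8 * ((C ×ˢ C).filter (fun q => key i q.1 = key i q.2)).card := by
    intro i
    have h1 : ((C ×ˢ C).filter (fun q => key i q.1 = key i q.2)).card =
        ∑ b : Prop × Prop × Prop, (C.filter (fun F => key i F = b)).card ^ 2 := by
      rw [Finset.card_eq_sum_card_fiberwise (f := fun q => key i q.1) (t := Finset.univ)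
        (fun _ _ => Finset.mem_coe.2 (Finset.mem_univ _))]
      refine Finset.sum_congr rfl fun b _ => ?_
      rw [sq, ← Finset.card_product]
      congr 1
      ext q
      simp only [Finset.mem_filter, Finset.mem_product]
      constructor
      · rintro ⟨⟨⟨h1, h2⟩, h3⟩, h4⟩
        exact ⟨⟨h1, h4⟩, h2, h3 ▸ h4⟩
      · rintro ⟨⟨h1, h2⟩, h3, h4⟩
        exact ⟨⟨⟨h1, h3⟩, h2.trans h4.symm⟩, h2⟩
    have h2 : N = ∑ b : Prop × Prop × Prop, (C.filter (fun F => key i F = b)).card :=
      Finset.card_eq_sum_card_fiberwise (fun _ _ => Finset.mem_coe.2 (Finset.mem_univ _))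
    have h3 := sq_sum_le_card_mul_sum_sq (s := (Finset.univ : Finset (Prop × Prop × Prop)))
      (f := fun b => (C.filter (fun F => key i F = b)).card)
    rw [← h2, ← h1] at h3
    simpa using h3
  -- double counting
  have hup : ∑ i : ZMod 16, ((C ×ˢ C).filter (fun q => key i q.1 = key i q.2)).card ≤
      ∑ q ∈ C ×ˢ C, (if q.1 = q.2 then 16 else 1) := by
    have : ∀ i : ZMod 16, ((C ×ˢ C).filter (fun q => key i q.1 = key i q.2)).card =
        ∑ q ∈ C ×ˢ C, (if key i q.1 = key i q.2 then 1 else 0) := by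
      intro i
      rw [Finset.card_filter]
    simp only [this]
    rw [Finset.sum_comm]
    refine Finset.sum_le_sum fun q hq => ?_
    rw [Finset.mem_product] at hq
    split_ifs with h
    · calc ∑ i : ZMod 16, (if key i q.1 = key i q.2 then 1 else 0) ≤ ∑ _i : ZMod 16, 1 :=
          Finset.sum_le_sum fun i _ => by split_ifs <;> norm_num
        _ = 16 := by simp
    · rw [← Finset.card_filter]
      rw [Finset.card_le_one]
      intro i hi j hj
      by_contra hne
      exact key_ne (hsub _ hq.1) (hsub _ hq.2) (hcon _ hq.1 _ hq.2 h) hne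
        (Finset.mem_filter.1 hi).2 (Finset.mem_filter.1 hj).2
  have hdiag : ∑ q ∈ C ×ˢ C, (if q.1 = q.2 then 16 else 1) = N ^ 2 + 15 * N := by
    have h1 : ∀ q ∈ C ×ˢ C, (if q.1 = q.2 then 16 else 1) =
        1 + 15 * (if q.1 = q.2 then 1 else 0) := by
      intro q _
      split_ifs <;> norm_num
    rw [Finset.sum_congr rfl h1, Finset.sum_add_distrib, ← Finset.mul_sum, ← Finset.card_filter]
    have h2 : ((C ×ˢ C).filter (fun q => q.1 = q.2)).card = N := by
      have h3 : (C ×ˢ C).filter (fun q => q.1 = q.2) = C.image (fun F => (F, F)) := by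
        ext ⟨a, b⟩
        simp only [Finset.mem_filter, Finset.mem_product, Finset.mem_image, Prod.mk.injEq]
        constructor
        · rintro ⟨⟨ha, _⟩, hab⟩
          exact ⟨a, ha, rfl, hab⟩
        · rintro ⟨c, hc, rfl, rfl⟩
          exact ⟨⟨hc, hc⟩, rfl⟩
      rw [h3, Finset.card_image_of_injective _ (fun a b h => congrArg Prod.fst h)]
    rw [h2]
    simp [Finset.card_product, sq, ← hN]
  have hsum : 16 * N ^ 2 ≤ 8 * (N ^ 2 + 15 * N) := by
    rw [← hdiag]
    refine le_trans ?_ (Nat.mul_le_mul_left 8 hup)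
    rw [Finset.mul_sum]
    calc 16 * N ^ 2 = ∑ _i : ZMod 16, N ^ 2 := by simp
      _ ≤ _ := Finset.sum_le_sum fun i _ => hlow i
  nlinarith

/-- The circulant graph on `ZMod 16` with jumps `1` and `2` is connected, `4`-regular and Ramanujan,
but its largest connectivity code has fewer than `2 ^ 4` members: every connectivity code has at
most `15` members. -/
theorem result :
    (circulantGraph {1, 2} : SimpleGraph (ZMod 16)).Connected ∧
    IsRamanujan (circulantGraph {1, 2} : SimpleGraph (ZMod 16)) 4 ∧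
    (∀ C : Finset (SimpleGraph (ZMod 16)), IsConnectivityCode (circulantGraph {1, 2}) C →
      C.card ≤ 15) ∧
    maxCode (circulantGraph {1, 2} : SimpleGraph (ZMod 16)) < 2 ^ 4 := by
  refine ⟨conn, ramanujan, code_card, ?_⟩
  have : maxCode H16 ≤ 15 := by
    apply csSup_le
    · exact ⟨0, ∅, ⟨by simp, by simp⟩, rfl⟩
    · rintro k ⟨C, hC, rfl⟩
      exact code_card C hC
  exact lt_of_le_of_lt this (by norm_num)

end Pool.Agent.Results.MP_7d4bc7_co.CirculantSixteen
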